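import Pool.Agent.V5helper50.SP.Stm
import Pool.Agent.V5helper59.MT.CM

set_option autoImplicit false

/-!
# Job CMU of project SP: the upper bound circle method inequality on the real line
-/

namespace Pool.Agent.V5helper81.SP.CMU

open MeasureTheory Finset Pool.Agent.V5helper50.SP Pool.Agent.V5helper59.MT.CM
open Pool.Agent.V5helper51.MT (e φ)

/-- one quarter of the majorant -/
noncomputable def κ (t : ℝ) : ℝ := 1 / 2 * φ ((t + 1 / 2) / 2)

lemma phi2_eq (t : ℝ) : φ2 t = 4 * κ t := by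
  unfold φ2 κ
  ring

lemma kap_cont : Continuous κ := by
  unfold κ
  exact continuous_const.mul (phi_cont.comp (by fun_prop))

lemma kap_nonneg (t : ℝ) : 0 ≤ κ t := by
  unfold κ
  have := phi_nonneg ((t + 1 / 2) / 2)
  positivity

lemma kap_ge {t : ℝ} (h0 : 0 ≤ t) (h1 : t ≤ 1) : 1 / 4 ≤ κ t := by
  have h2 : 1 / 2 ≤ φ ((t + 1 / 2) / 2) := by
    unfold φ
    refine le_trans ?_ (le_max_right _ _)
    have : |2 * ((t + 1 / 2) / 2) - 1| ≤ 1 / 2 := by
      rw [abs_le]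
      constructor <;> linarith
    linarith
  unfold κ
  linarith

lemma kap_floor {y : ℝ} {m n : ℤ} (h : m + ⌊y⌋ = n) : 1 / 4 ≤ κ (y + (m - n)) := by
  have h1 : (⌊y⌋ : ℝ) = n - m := by
    have : (⌊y⌋ : ℤ) = n - m := by omega
    rw [this]
    push_cast
    ring
  have h2 := Int.floor_le y
  have h3 := Int.lt_floor_add_one y
  apply kap_ge <;> linarith

lemma count_le' {ι : Type} (S T : Finset ι) (s t : ι → ℤ) (X₀ X : ℕ) (H : ℝ → ℝ) (n : ℤ) :
    (((S ×ˢ (T ×ˢ Ico X₀ X)).filter fun p => s p.1 + t p.2.1 + ⌊H p.2.2⌋ = n).card : ℝ) ≤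
    ∑ v ∈ S, ∑ w ∈ T, ∑ z ∈ Ico X₀ X, 4 * κ (H z + (s v + t w - n)) := by
  rw [Finset.card_filter]
  push_cast
  rw [Finset.sum_product]
  refine Finset.sum_le_sum fun v _ => ?_
  rw [Finset.sum_product]
  refine Finset.sum_le_sum fun w _ => Finset.sum_le_sum fun z _ => ?_
  dsimp only
  split_ifs with h
  · have h1 := kap_floor (y := H z) (m := s v + t w) (n := n) h
    push_cast at h1
    linarith
  · have := kap_nonneg (H z + (s v + t w - n))
    linarith

/-! ### Fubini -/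

lemma fub' {κ : ℝ → ℝ} {ψ : ℝ → ℂ} (hc : Continuous ψ) (hb : ∀ γ, ‖ψ γ‖ ≤ 1 / (1 + γ ^ 2))
    (hψ : ∀ t : ℝ, ((κ t : ℝ) : ℂ) = ∫ γ : ℝ, ψ γ * e (γ * t)) (G : ℝ → ℝ) (hG : Continuous G)
    (X₀ X : ℕ) (hX : X₀ ≤ X) :
    (((∫ u in (X₀ : ℝ)..X, κ (G u)) : ℝ) : ℂ) =
      ∫ γ : ℝ, ψ γ * ∫ u in (X₀ : ℝ)..X, e (γ * G u) := by
  rw [← intervalIntegral.integral_ofReal]
  have hX' : (X₀ : ℝ) ≤ X := by exact_mod_cast hX
  simp_rw [hψ, intervalIntegral.integral_of_le hX']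
  rw [integral_integral_swap]
  · congr 1
    funext γ
    rw [integral_const_mul]
  · have h1 := (integrable_inv_one_add_sq).comp_snd (volume.restrict (Set.Ioc (X₀ : ℝ) X))
    refine Integrable.mono' h1 ?_ ?_
    · apply Continuous.aestronglyMeasurable
      exact (hc.comp continuous_snd).mul
        (e_cont.comp (continuous_snd.mul (hG.comp continuous_fst)))
    · refine Filter.Eventually.of_forall fun p => ?_
      simp only [Function.uncurry]
      rw [norm_mul, norm_e, mul_one]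
      have := hb p.2
      rwa [one_div] at this

/-- the error term -/
noncomputable def Dl (X₀ X : ℕ) (H : ℝ → ℝ) (γ : ℝ) : ℂ :=
  (∑ z ∈ Ico X₀ X, e (γ * H z)) - ∫ u in (X₀ : ℝ)..X, e (γ * H u)

lemma Dl_cont (X₀ X : ℕ) (H : ℝ → ℝ) (hH : Continuous H) : Continuous (Dl X₀ X H) := by
  unfold Dl
  refine Continuous.sub ?_ ?_
  · exact continuous_finsetSum _ fun z _ => e_cont.comp (continuous_id.mul continuous_const)
  · apply intervalIntegral.continuous_parametric_intervalIntegral_of_continuous'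
    exact e_cont.comp (continuous_fst.mul (hH.comp continuous_snd))

lemma int_le (X₀ X : ℕ) (hX : X₀ ≤ X) (H : ℝ → ℝ) (γ : ℝ) :
    ‖∫ u in (X₀ : ℝ)..X, e (γ * H u)‖ ≤ X := by
  have h1 : ‖∫ u in (X₀ : ℝ)..X, e (γ * H u)‖ ≤ 1 * |(X : ℝ) - X₀| :=
    intervalIntegral.norm_integral_le_of_norm_le_const fun u _ => (norm_e _).le
  have h2 : (X₀ : ℝ) ≤ X := by exact_mod_cast hX
  have h3 : (0 : ℝ) ≤ X₀ := Nat.cast_nonneg _
  rw [one_mul, abs_of_nonneg (by linarith)] at h1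
  linarith

lemma sum_le (X₀ X : ℕ) (H : ℝ → ℝ) (γ : ℝ) : ‖∑ z ∈ Ico X₀ X, e (γ * H z)‖ ≤ X := by
  refine (norm_sum_le _ _).trans ?_
  simp only [norm_e, sum_const, Nat.card_Ico, nsmul_eq_mul, mul_one]
  exact_mod_cast Nat.sub_le X X₀

lemma Dl_le (X₀ X : ℕ) (hX : X₀ ≤ X) (H : ℝ → ℝ) (γ : ℝ) : ‖Dl X₀ X H γ‖ ≤ 2 * X := by
  unfold Dl
  refine (norm_sub_le _ _).trans ?_
  linarith [int_le X₀ X hX H γ, sum_le X₀ X H γ]

lemma diff_eq' {κ : ℝ → ℝ} {ψ : ℝ → ℂ} (hc : Continuous ψ) (hb : ∀ γ, ‖ψ γ‖ ≤ 1 / (1 + γ ^ 2))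
    (hψ : ∀ t : ℝ, ((κ t : ℝ) : ℂ) = ∫ γ : ℝ, ψ γ * e (γ * t)) (H : ℝ → ℝ) (hH : Continuous H)
    (X₀ X : ℕ) (hX : X₀ ≤ X) (c : ℝ) :
    (((∑ z ∈ Ico X₀ X, κ (H z + c)) - ∫ u in (X₀ : ℝ)..X, κ (H u + c) : ℝ) : ℂ) =
      ∫ γ : ℝ, ψ γ * (e (γ * c) * Dl X₀ X H γ) := by
  have hsum : ((∑ z ∈ Ico X₀ X, κ (H z + c) : ℝ) : ℂ) =
      ∫ γ : ℝ, ψ γ * (e (γ * c) * ∑ z ∈ Ico X₀ X, e (γ * H z)) := by
    rw [Complex.ofReal_sum]
    simp_rw [hψ]
    rw [← integral_finsetSum]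
    · congr 1
      funext γ
      rw [Finset.mul_sum, Finset.mul_sum]
      refine Finset.sum_congr rfl fun z _ => ?_
      rw [mul_add, e_add]
      ring
    · intro z _
      exact psi_int hc hb (e_cont.comp (continuous_id.mul continuous_const)) 1
        fun γ => (norm_e _).le
  have hint : (((∫ u in (X₀ : ℝ)..X, κ (H u + c)) : ℝ) : ℂ) =
      ∫ γ : ℝ, ψ γ * (e (γ * c) * ∫ u in (X₀ : ℝ)..X, e (γ * H u)) := by
    rw [fub' hc hb hψ (fun u => H u + c) (hH.add continuous_const) X₀ X hX]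
    congr 1
    funext γ
    have h1 : ∫ u in (X₀ : ℝ)..X, e (γ * (H u + c)) =
        e (γ * c) * ∫ u in (X₀ : ℝ)..X, e (γ * H u) := by
      rw [← intervalIntegral.integral_const_mul]
      apply intervalIntegral.integral_congr
      intro u _
      dsimp only
      rw [mul_add, e_add]
      ring
    rw [h1]
  rw [Complex.ofReal_sub, hsum, hint, ← integral_sub]
  · congr 1
    funext γ
    unfold Dl
    ring
  · refine psi_int hc hb (F := fun γ => e (γ * c) * ∑ z ∈ Ico X₀ X, e (γ * H z)) ?_ X ?_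
    · refine (e_cont.comp (continuous_id.mul continuous_const)).mul ?_
      exact continuous_finsetSum _ fun z _ => e_cont.comp (continuous_id.mul continuous_const)
    · intro γ
      rw [norm_mul, norm_e, one_mul]
      exact sum_le X₀ X H γ
  · refine psi_int hc hb (F := fun γ => e (γ * c) * ∫ u in (X₀ : ℝ)..X, e (γ * H u)) ?_ X ?_
    · refine (e_cont.comp (continuous_id.mul continuous_const)).mul ?_
      apply intervalIntegral.continuous_parametric_intervalIntegral_of_continuous'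
      exact e_cont.comp (continuous_fst.mul (hH.comp continuous_snd))
    · intro γ
      rw [norm_mul, norm_e, one_mul]
      exact int_le X₀ X hX H γ

/-! ### The kernel -/

lemma kernel (hK : Pool.Agent.V5helper51.MT.S_KER) : ∃ ψ : ℝ → ℂ, Continuous ψ ∧
    (∀ γ, ‖ψ γ‖ ≤ 1 / (1 + γ ^ 2)) ∧ ∀ t : ℝ, ((κ t : ℝ) : ℂ) = ∫ γ : ℝ, ψ γ * e (γ * t) := by
  obtain ⟨ψ, hc, hb, hψ⟩ := hK
  refine ⟨fun γ => ψ (2 * γ) * e (γ * (1 / 2)), ?_, ?_, ?_⟩
  · exact (hc.comp (by fun_prop)).mul (e_cont.comp (by fun_prop))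
  · intro γ
    rw [norm_mul, norm_e, mul_one]
    refine (hb _).trans ?_
    apply one_div_le_one_div_of_le (by positivity)
    nlinarith [sq_nonneg γ]
  · intro t
    have h1 : ∀ γ : ℝ, ψ (2 * γ) * e (γ * (1 / 2)) * e (γ * t) =
        (fun η : ℝ => ψ η * e (η * ((t + 1 / 2) / 2))) (2 * γ) := by
      intro γ
      dsimp only
      rw [mul_assoc, ← e_add]
      congr 2
      ring
    have h2 : ∫ γ : ℝ, ψ (2 * γ) * e (γ * (1 / 2)) * e (γ * t) =
        ∫ γ : ℝ, (fun η : ℝ => ψ η * e (η * ((t + 1 / 2) / 2))) (2 * γ) := by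
      congr 1
      funext γ
      exact h1 γ
    have h3 := MeasureTheory.Measure.integral_comp_mul_left
      (fun η : ℝ => ψ η * e (η * ((t + 1 / 2) / 2))) 2
    rw [h2, h3, ← hψ]
    unfold κ
    rw [abs_of_pos (by norm_num : (0 : ℝ) < 2⁻¹), Complex.real_smul]
    push_cast
    norm_num

/-! ### The theorem -/

theorem t_CMU (hK : Pool.Agent.V5helper51.MT.S_KER) : S_CMU := by
  intro ι S T s t X₀ X H n Γ δ E hX₀ hH hΓ hδ hΔ hS hT
  obtain ⟨ψ, hc, hb, hψ⟩ := kernel hK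
  have hE : 0 ≤ E := le_trans (Nat.cast_nonneg _) hS
  have hX : (0 : ℝ) ≤ X := Nat.cast_nonneg X
  set a : ℝ → ℝ := fun γ => ‖∑ v ∈ S, e (γ * s v)‖ with ha
  set b : ℝ → ℝ := fun γ => ‖∑ w ∈ T, e (γ * t w)‖ with hb'
  have hac : Continuous a := (continuous_finsetSum _ fun v _ =>
    e_cont.comp (continuous_id.mul continuous_const)).norm
  have hbc : Continuous b := (continuous_finsetSum _ fun v _ =>
    e_cont.comp (continuous_id.mul continuous_const)).norm
  have hDc : Continuous fun γ => ‖Dl X₀ X H γ‖ := (Dl_cont X₀ X H hH).norm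
  set g : ℝ → ℝ := fun γ => 1 / (1 + γ ^ 2) * (a γ * b γ) * ‖Dl X₀ X H γ‖ with hg
  have hgc : Continuous g := by
    refine (Continuous.mul ?_ (hac.mul hbc)).mul hDc
    refine continuous_const.div (by fun_prop) fun γ => ?_
    positivity
  have ha1 : ∀ γ, a γ ≤ S.card := by
    intro γ
    refine (norm_sum_le _ _).trans ?_
    simp [norm_e]
  have hb1 : ∀ γ, b γ ≤ T.card := by
    intro γ
    refine (norm_sum_le _ _).trans ?_
    simp [norm_e]
  have ha0 : ∀ γ, 0 ≤ a γ := fun γ => norm_nonneg _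
  have hb0 : ∀ γ, 0 ≤ b γ := fun γ => norm_nonneg _
  have hgi : Integrable g := by
    refine Integrable.mono' (integrable_inv_one_add_sq.mul_const
      ((S.card : ℝ) * T.card * (2 * X))) hgc.aestronglyMeasurable
      (Filter.Eventually.of_forall fun γ => ?_)
    have h0 : 0 ≤ g γ := by
      have := mul_nonneg (ha0 γ) (hb0 γ)
      rw [hg]
      positivity
    rw [Real.norm_of_nonneg h0, hg]
    dsimp only
    rw [one_div, mul_assoc]
    apply mul_le_mul_of_nonneg_left _ (by positivity)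
    exact mul_le_mul (mul_le_mul (ha1 γ) (hb1 γ) (hb0 γ) (by positivity)) (Dl_le X₀ X hX₀ H γ)
      (norm_nonneg _) (by positivity)
  -- the difference
  set c : ι → ι → ℝ := fun v w => (s v : ℝ) + t w - n with hcdef
  have hcv : ∀ v w γ, e (γ * c v w) = e (γ * s v) * e (γ * t w) * e (-γ * n) := by
    intro v w γ
    rw [← e_add, ← e_add]
    congr 1
    rw [hcdef]
    ring
  have hQi : ∀ v w, Integrable fun γ => ψ γ * (e (γ * c v w) * Dl X₀ X H γ) := by
    intro v w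
    refine psi_int hc hb (F := fun γ => e (γ * c v w) * Dl X₀ X H γ)
      ((e_cont.comp (continuous_id.mul continuous_const)).mul (Dl_cont X₀ X H hH)) (2 * X) ?_
    intro γ
    rw [norm_mul, norm_e, one_mul]
    exact Dl_le X₀ X hX₀ H γ
  have hD : ((∑ v ∈ S, ∑ w ∈ T, ((∑ z ∈ Ico X₀ X, κ (H z + c v w)) -
      ∫ u in (X₀ : ℝ)..X, κ (H u + c v w)) : ℝ) : ℂ) =
      ∫ γ : ℝ, ∑ v ∈ S, ∑ w ∈ T, ψ γ * (e (γ * c v w) * Dl X₀ X H γ) := by
    rw [Complex.ofReal_sum, integral_finsetSum]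
    · refine Finset.sum_congr rfl fun v _ => ?_
      rw [Complex.ofReal_sum, integral_finsetSum]
      · refine Finset.sum_congr rfl fun w _ => ?_
        exact diff_eq' hc hb hψ H hH X₀ X hX₀ (c v w)
      · intro w _
        exact hQi v w
    · intro v _
      exact integrable_finsetSum _ fun w _ => hQi v w
  have hnorm : ∀ γ, ‖∑ v ∈ S, ∑ w ∈ T, ψ γ * (e (γ * c v w) * Dl X₀ X H γ)‖ ≤ g γ := by
    intro γ
    have h1 : ∑ v ∈ S, ∑ w ∈ T, ψ γ * (e (γ * c v w) * Dl X₀ X H γ) =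
        ψ γ * (((∑ v ∈ S, e (γ * s v)) * (∑ w ∈ T, e (γ * t w))) * e (-γ * n) *
          Dl X₀ X H γ) := by
      rw [Finset.sum_mul_sum, Finset.sum_mul, Finset.sum_mul, Finset.mul_sum]
      refine Finset.sum_congr rfl fun v _ => ?_
      rw [Finset.sum_mul, Finset.sum_mul, Finset.mul_sum]
      refine Finset.sum_congr rfl fun w _ => ?_
      rw [hcv]
    rw [h1, norm_mul, norm_mul, norm_mul, norm_mul, norm_e, mul_one]
    change ‖ψ γ‖ * (a γ * b γ * ‖Dl X₀ X H γ‖) ≤ 1 / (1 + γ ^ 2) * (a γ * b γ) * ‖Dl X₀ X H γ‖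
    rw [mul_assoc (1 / (1 + γ ^ 2))]
    apply mul_le_mul_of_nonneg_right (hb γ)
    have := mul_nonneg (ha0 γ) (hb0 γ)
    positivity
  have hDle : ∑ v ∈ S, ∑ w ∈ T, ((∑ z ∈ Ico X₀ X, κ (H z + c v w)) -
      ∫ u in (X₀ : ℝ)..X, κ (H u + c v w)) ≤ ∫ γ, g γ := by
    have h1 := norm_integral_le_of_norm_le hgi (Filter.Eventually.of_forall hnorm)
    rw [← hD, Complex.norm_real] at h1
    exact (le_abs_self _).trans h1
  -- the bound of the integral
  have hmain : ∀ N : ℕ, ∫ γ in (-(N : ℝ))..N, g γ ≤ 20 * (δ + X / Γ) * E := by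
    intro N
    rw [← intervalIntegral.integral_add_adjacent_intervals
      (hgc.intervalIntegrable (-(N:ℝ)) 0) (hgc.intervalIntegrable 0 N)]
    have hpos : ∫ γ in (0:ℝ)..N, g γ ≤ (3 * δ + 8 * X / Γ) * E := by
      refine half a b (fun γ => ‖Dl X₀ X H γ‖) hac hbc hDc ha0 hb0 (fun γ => norm_nonneg _)
        E δ X Γ (fun j => ?_) (fun j => ?_) hE hδ hX hΓ ?_ (fun γ => Dl_le X₀ X hX₀ H γ) N
      · rw [ha, orth]; exact hS
      · rw [hb', orth]; exact hT
      · intro γ hγ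
        unfold Dl
        exact hΔ γ hγ
    have hneg : ∫ γ in (-(N:ℝ))..0, g γ ≤ (3 * δ + 8 * X / Γ) * E := by
      have h1 : ∫ γ in (-(N:ℝ))..0, g γ = ∫ γ in (0:ℝ)..N, g (-γ) := by
        rw [intervalIntegral.integral_comp_neg, neg_zero]
      rw [h1]
      have h2 := half (fun γ => a (-γ)) (fun γ => b (-γ)) (fun γ => ‖Dl X₀ X H (-γ)‖)
        (hac.comp continuous_neg) (hbc.comp continuous_neg) (hDc.comp continuous_neg)
        (fun γ => ha0 _) (fun γ => hb0 _) (fun γ => norm_nonneg _) E δ X Γ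
        (fun j => ?_) (fun j => ?_) hE hδ hX hΓ ?_ (fun γ => Dl_le X₀ X hX₀ H _) N
      · refine le_trans (le_of_eq ?_) h2
        congr 1
        funext γ
        rw [hg]
        dsimp only
        rw [neg_sq]
      · rw [ha]
        dsimp only
        rw [orth_neg]; exact hS
      · rw [hb']
        dsimp only
        rw [orth_neg]; exact hT
      · intro γ hγ
        unfold Dl
        exact hΔ (-γ) (by rwa [abs_neg])
    have h5 : 0 ≤ δ * E := mul_nonneg hδ hE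
    have h6 : 0 ≤ X / Γ * E := by positivity
    have h7 : (3 * δ + 8 * X / Γ) * E = 3 * (δ * E) + 8 * (X / Γ * E) := by ring
    have h8 : 20 * (δ + X / Γ) * E = 20 * (δ * E) + 20 * (X / Γ * E) := by ring
    rw [h7] at hpos hneg
    rw [h8]
    linarith
  have hlim : ∫ γ, g γ ≤ 20 * (δ + X / Γ) * E := by
    have ht := intervalIntegral_tendsto_integral hgi
      (Filter.tendsto_neg_atTop_atBot.comp (tendsto_natCast_atTop_atTop (R := ℝ)))
      (tendsto_natCast_atTop_atTop (R := ℝ))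
    exact le_of_tendsto ht (Filter.Eventually.of_forall fun N => hmain N)
  have hcount := count_le' S T s t X₀ X H n
  have hfin : ∑ v ∈ S, ∑ w ∈ T, ∑ z ∈ Ico X₀ X, 4 * κ (H z + (s v + t w - n)) =
      4 * (∑ v ∈ S, ∑ w ∈ T, ((∑ z ∈ Ico X₀ X, κ (H z + c v w)) -
      ∫ u in (X₀ : ℝ)..X, κ (H u + c v w))) +
      ∑ v ∈ S, ∑ w ∈ T, ∫ u in (X₀ : ℝ)..X, φ2 (H u + s v + t w - n) := by
    rw [Finset.mul_sum, ← Finset.sum_add_distrib]
    refine Finset.sum_congr rfl fun v _ => ?_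
    rw [Finset.mul_sum, ← Finset.sum_add_distrib]
    refine Finset.sum_congr rfl fun w _ => ?_
    have h1 : ∫ u in (X₀ : ℝ)..X, φ2 (H u + s v + t w - n) =
        4 * ∫ u in (X₀ : ℝ)..X, κ (H u + c v w) := by
      rw [← intervalIntegral.integral_const_mul]
      congr 1
      funext u
      rw [phi2_eq, hcdef]
      dsimp only
      congr 2
      ring
    rw [h1, mul_sub, sub_add_cancel, Finset.mul_sum]
  have h9 : 0 ≤ (δ + X / Γ) * E := mul_nonneg (by positivity) hE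
  have h10 : 20 * (δ + X / Γ) * E = 20 * ((δ + X / Γ) * E) := by ring
  have h11 : 100 * (δ + X / Γ) * E = 100 * ((δ + X / Γ) * E) := by ring
  rw [hfin] at hcount
  rw [h10] at hlim
  rw [h11]
  linarith

end Pool.Agent.V5helper81.SP.CMU
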